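import Mathlib

namespace Pool.Agent.Results.MP_f90694_nt.TwoRegular

/-- The defining conditions of `h : ℤ → ℤ`: `h(n) = 1` for `n ≤ 1` and
`h(n) = h(n - h(n-1)) + h(n-2)` for `n > 1`. -/
def IsH (h : ℤ → ℤ) : Prop :=
  (∀ n ≤ 1, h n = 1) ∧ ∀ n > 1, h n = h (n - h (n - 1)) + h (n - 2)

/-- The `k`-kernel of an integer sequence. -/
def kKernel (k : ℕ) (u : ℕ → ℤ) : Set (ℕ → ℤ) :=
  {v | ∃ j c : ℕ, c < k ^ j ∧ v = fun n => u (k ^ j * n + c)}

/-- `u` is `k`-regular: the `ℤ`-module generated by its `k`-kernel is finitely generated. -/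
def IsRegular (k : ℕ) (u : ℕ → ℤ) : Prop := (Submodule.span ℤ (kKernel k u)).FG

/-! ### A criterion for 2-regularity -/

lemma regular_of_closed {u : ℕ → ℤ} {G : Set (ℕ → ℤ)} (hG : G.Finite)
    (hu : u ∈ Submodule.span ℤ G)
    (hcl : ∀ g ∈ G, ∀ b ≤ 1, (fun n => g (2 * n + b)) ∈ Submodule.span ℤ G) :
    IsRegular 2 u := by
  have h1 : ∀ b ≤ 1, ∀ v ∈ Submodule.span ℤ G,
      (fun n => v (2 * n + b)) ∈ Submodule.span ℤ G := by
    intro b hb v hv
    induction hv using Submodule.span_induction with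
    | mem x hx => exact hcl x hx b hb
    | zero => exact Submodule.zero_mem _
    | add x y _ _ hx hy => exact Submodule.add_mem _ hx hy
    | smul a x _ hx => exact Submodule.smul_mem _ a hx
  have h2 : ∀ i j, j < 2 ^ i → ∀ v ∈ Submodule.span ℤ G,
      (fun n => v (2 ^ i * n + j)) ∈ Submodule.span ℤ G := by
    intro i
    induction i with
    | zero =>
      intro j hj v hv
      have : j = 0 := by simpa using hj
      subst this
      simpa using hv
    | succ i ih =>
      intro j hj v hv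
      have h3 := ih (j / 2) (by rw [pow_succ] at hj; omega) _ (h1 (j % 2) (by omega) v hv)
      have h4 : (fun n => v (2 * (2 ^ i * n + j / 2) + j % 2)) =
          fun n => v (2 ^ (i + 1) * n + j) := by
        funext n
        congr 1
        have := Nat.div_add_mod j 2
        calc 2 * (2 ^ i * n + j / 2) + j % 2 = 2 ^ (i + 1) * n + (2 * (j / 2) + j % 2) := by ring
          _ = _ := by rw [this]
      rw [← h4]
      exact h3
  have hfg : (Submodule.span ℤ G).FG := Submodule.fg_span hG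
  have : IsNoetherian ℤ (Submodule.span ℤ G) := isNoetherian_of_fg_of_noetherian _ hfg
  apply Submodule.FG.of_le_of_isNoetherian (T := Submodule.span ℤ G)
  rw [Submodule.span_le]
  rintro v ⟨i, j, hj, rfl⟩
  exact h2 i j hj u hu

lemma reg_aux {u : ℕ → ℤ} {T : Set (ℕ → ℤ)} (hT : T.Finite)
    (hTcl : ∀ x ∈ T, ∀ b ≤ 1, (fun n => x (2 * n + b)) ∈ T)
    (hu : ∀ t < 16, ∃ c d : ℤ, ∃ x ∈ T, ∀ n : ℕ, u (16 * n + t) = 32 * n + c + d * x n) :
    IsRegular 2 u := by
  set K : Set (ℕ → ℤ) := {v | ∃ e c, e < 4 ∧ c < 2 ^ e ∧ v = fun n => u (2 ^ e * n + c)} with hK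
  have hKf : K.Finite := by
    apply (((Set.finite_Iio 4).prod (Set.finite_Iio 16)).image
      (fun p : ℕ × ℕ => (fun n => u (2 ^ p.1 * n + p.2)))).subset
    rintro v ⟨e, c, he, hc, rfl⟩
    refine ⟨(e, c), ⟨he, ?_⟩, rfl⟩
    have : 2 ^ e ≤ 2 ^ 3 := Nat.pow_le_pow_right (by norm_num) (by omega)
    simp only [Set.mem_Iio]
    omega
  set G : Set (ℕ → ℤ) := ({(fun n : ℕ => (n : ℤ)), (fun _ : ℕ => (1 : ℤ))} : Set (ℕ → ℤ)) ∪ T ∪ K with hGdef
  have hn : (fun n : ℕ => (n : ℤ)) ∈ Submodule.span ℤ G :=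
    Submodule.subset_span (Or.inl (Or.inl (Or.inl rfl)))
  have h1 : (fun _ : ℕ => (1 : ℤ)) ∈ Submodule.span ℤ G :=
    Submodule.subset_span (Or.inl (Or.inl (Or.inr rfl)))
  apply regular_of_closed (G := G)
  · exact ((Set.toFinite _).union hT).union hKf
  · apply Submodule.subset_span
    right
    exact ⟨0, 0, by norm_num, by norm_num, by simp⟩
  · rintro g ((hg | hg) | hg) b hb
    · rcases hg with rfl | hg
      · have : (fun n : ℕ => (((2 * n + b : ℕ)) : ℤ)) = (2 : ℤ) • (fun n : ℕ => (n : ℤ)) +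
          (b : ℤ) • (fun _ : ℕ => (1 : ℤ)) := by
          funext n
          simp
        beta_reduce
        rw [this]
        exact Submodule.add_mem _ (Submodule.smul_mem _ _ hn) (Submodule.smul_mem _ _ h1)
      · have hg' : g = fun _ => 1 := hg
        rw [hg']
        exact h1
    · exact Submodule.subset_span (Or.inl (Or.inr (hTcl g hg b hb)))
    · obtain ⟨e, c, he, hc, rfl⟩ := hg
      have hc2 : 2 ^ e * b + c < 2 ^ (e + 1) := by
        rw [pow_succ]
        have : 2 ^ e * b ≤ 2 ^ e * 1 := Nat.mul_le_mul_left _ hb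
        omega
      have hfun : (fun n => u (2 ^ e * (2 * n + b) + c)) =
          fun n => u (2 ^ (e + 1) * n + (2 ^ e * b + c)) := by
        funext n
        congr 1
        ring
      rw [hfun]
      by_cases he3 : e + 1 < 4
      · apply Submodule.subset_span
        right
        exact ⟨e + 1, 2 ^ e * b + c, he3, hc2, rfl⟩
      · obtain rfl : e = 3 := by omega
        obtain ⟨C, D, x, hx, hux⟩ := hu (2 ^ 3 * b + c) (by norm_num at hc2 ⊢; exact hc2)
        have : (fun n => u (2 ^ (3 + 1) * n + (2 ^ 3 * b + c))) =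
            (32 : ℤ) • (fun n : ℕ => (n : ℤ)) + C • (fun _ : ℕ => (1 : ℤ)) + D • x := by
          funext n
          simp only [Pi.add_apply, Pi.smul_apply, smul_eq_mul, mul_one]
          rw [← hux n]
          norm_num
        rw [this]
        exact Submodule.add_mem _ (Submodule.add_mem _ (Submodule.smul_mem _ _ hn)
          (Submodule.smul_mem _ _ h1)) (Submodule.smul_mem _ _
          (Submodule.subset_span (Or.inl (Or.inr hx))))

/-! ### Arithmetic of `h` -/

lemma h_basic {h : ℤ → ℤ} (hh : IsH h) : ∀ m : ℕ, h (2 * m + 1) = m + 1 ∧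
    2 * (m : ℤ) ≤ h (2 * m) ∧ 1 ≤ h (2 * m) ∧ h (2 * m + 2) = h (2 * m) + h (m + 1) := by
  obtain ⟨h1, h2⟩ := hh
  have step : ∀ m : ℕ, h (2 * m + 1) = m + 1 → h (2 * m + 2) = h (2 * m) + h (m + 1) := by
    intro m hm
    rw [h2 (2 * m + 2) (by omega), show (2 * (m : ℤ) + 2 - 1) = 2 * m + 1 by ring, hm,
      show (2 * (m : ℤ) + 2 - (m + 1)) = m + 1 by ring,
      show (2 * (m : ℤ) + 2 - 2) = 2 * m by ring]
    ring
  intro m
  induction m using Nat.strong_induction_on with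
  | _ m ih =>
    rcases Nat.eq_zero_or_pos m with rfl | hm
    · have e1 : h (2 * ((0 : ℕ) : ℤ) + 1) = ((0 : ℕ) : ℤ) + 1 := by
        have := h1 1 le_rfl
        simpa using this
      have e0 : h 0 = 1 := h1 0 (by norm_num)
      refine ⟨e1, ?_, ?_, step 0 e1⟩
      · simp [e0]
      · simp [e0]
    · obtain ⟨j, rfl⟩ : ∃ j, m = j + 1 := ⟨m - 1, by omega⟩
      obtain ⟨a1, a2, a3, a4⟩ := ih j (by omega)
      -- `h (j+1) ≥ 2` unless `j = 0`
      have hj2 : j = 0 ∨ 2 ≤ h ((j : ℤ) + 1) := by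
        rcases Nat.eq_zero_or_pos j with hj | hj
        · left; exact hj
        · right
          rcases Nat.even_or_odd' (j + 1) with ⟨i, hi | hi⟩
          · obtain ⟨_, b2, _, _⟩ := ih i (by omega)
            have : ((j : ℤ) + 1) = 2 * i := by exact_mod_cast hi
            rw [this]
            omega
          · obtain ⟨b1, _, _, _⟩ := ih i (by omega)
            have : ((j : ℤ) + 1) = 2 * i + 1 := by exact_mod_cast hi
            rw [this, b1]
            omega
      have a5 : 2 * (((j + 1 : ℕ)) : ℤ) ≤ h (2 * ((j + 1 : ℕ) : ℤ)) := by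
        have e : (2 * ((j + 1 : ℕ) : ℤ)) = 2 * j + 2 := by push_cast; ring
        rw [e, a4]
        rcases hj2 with rfl | hj2
        · have e0 : h 0 = 1 := h1 0 (by norm_num)
          have e1 : h 1 = 1 := h1 1 le_rfl
          simp [e0, e1]
        · omega
      have a6 : h (2 * ((j + 1 : ℕ) : ℤ) + 1) = ((j + 1 : ℕ) : ℤ) + 1 := by
        rw [h2 _ (by push_cast; omega)]
        have e : (2 * ((j + 1 : ℕ) : ℤ) + 1 - 1) = 2 * ((j + 1 : ℕ) : ℤ) := by ring
        rw [e, h1 (2 * ((j + 1 : ℕ) : ℤ) + 1 - h (2 * ((j + 1 : ℕ) : ℤ))) (by omega),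
          show (2 * ((j + 1 : ℕ) : ℤ) + 1 - 2) = 2 * j + 1 by push_cast; ring, a1]
        push_cast
        ring
      exact ⟨a6, a5, by push_cast at a5 ⊢; omega, step _ a6⟩

/-- 4-periodic function -/
def tt (l : ℕ) : ℤ := if l % 4 < 2 then 0 else 1

/-- parity of `h(4k)` -/
lemma h_four {h : ℤ → ℤ} (hh : IsH h) : ∀ l : ℕ,
    h (4 * (2 * l : ℕ)) % 2 = (h (4 * l) + tt l) % 2 ∧
    h (4 * (2 * l + 1 : ℕ)) % 2 = (tt l + l) % 2 := by
  have hb := h_basic hh
  have q1 : ∀ k : ℕ, h (4 * k + 2) = h (4 * k) + k + 1 := by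
    intro k
    have e1 := (hb (2 * k)).2.2.2
    have e2 := (hb k).1
    have e3 : (2 * ((2 * k : ℕ) : ℤ)) = 4 * k := by push_cast; ring
    rw [e3] at e1
    rw [e1, show (((2 * k : ℕ) : ℤ) + 1) = 2 * k + 1 by push_cast; ring, e2]
    ring
  have q2 : ∀ k : ℕ, h (4 * k + 4) = h (4 * k) + k + 1 + h (2 * k + 2) := by
    intro k
    have e1 := (hb (2 * k + 1)).2.2.2
    have e3 : (2 * ((2 * k + 1 : ℕ) : ℤ)) = 4 * k + 2 := by push_cast; ring
    rw [e3] at e1
    rw [show (4 * (k : ℤ) + 4) = 4 * k + 2 + 2 by ring, e1, q1,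
      show (((2 * k + 1 : ℕ) : ℤ) + 1) = 2 * k + 2 by push_cast; ring]
  have r1 : ∀ l : ℕ, h (8 * l + 4) = h (8 * l) + h (4 * l) + 3 * l + 2 := by
    intro l
    have e1 := q2 (2 * l)
    have e2 := q1 l
    rw [show (4 * ((2 * l : ℕ) : ℤ)) = 8 * l by push_cast; ring,
      show (2 * ((2 * l : ℕ) : ℤ) + 2) = 4 * l + 2 by push_cast; ring, e2] at e1
    rw [e1]
    push_cast
    ring
  have r2 : ∀ l : ℕ, h (8 * l + 8) = h (8 * l + 4) + h (4 * l + 4) + 2 * l + 2 := by
    intro l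
    have e1 := q2 (2 * l + 1)
    rw [show (4 * ((2 * l + 1 : ℕ) : ℤ)) = 8 * l + 4 by push_cast; ring,
      show (2 * ((2 * l + 1 : ℕ) : ℤ) + 2) = 4 * l + 4 by push_cast; ring,
      show (8 * (l : ℤ) + 4 + 4) = 8 * l + 8 by ring] at e1
    rw [e1]
    push_cast
    ring
  have main : ∀ l : ℕ, h (8 * l) % 2 = (h (4 * l) + tt l) % 2 := by
    intro l
    induction l with
    | zero => simp [tt]
    | succ l ih =>
      have e1 := r1 l
      have e2 := r2 l
      rw [show (8 * ((l + 1 : ℕ) : ℤ)) = 8 * l + 8 by push_cast; ring,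
        show (4 * ((l + 1 : ℕ) : ℤ)) = 4 * l + 4 by push_cast; ring, e2, e1]
      unfold tt at *
      split_ifs at * <;> omega
  intro l
  have e0 := main l
  have e1 := r1 l
  rw [show (4 * ((2 * l : ℕ) : ℤ)) = 8 * l by push_cast; ring,
    show (4 * ((2 * l + 1 : ℕ) : ℤ)) = 8 * l + 4 by push_cast; ring]
  refine ⟨e0, ?_⟩
  rw [e1]
  omega

/-! ### Existence of `h` -/

/-- the values of `h` at natural numbers -/
def H (n : ℕ) : ℤ :=
  if _hn : n ≤ 1 then 1
  else if n % 2 = 1 then ((n / 2 : ℕ) : ℤ) + 1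
  else H (n - 2) + H (n / 2)
termination_by n

lemma H_odd (m : ℕ) : H (2 * m + 1) = m + 1 := by
  rw [H]
  by_cases hm : 2 * m + 1 ≤ 1
  · rw [dif_pos hm]
    have : m = 0 := by omega
    subst this; simp
  · rw [dif_neg hm, if_pos (by omega), show (2 * m + 1) / 2 = m by omega]

lemma H_even (m : ℕ) : H (2 * m + 2) = H (2 * m) + H (m + 1) := by
  rw [H, dif_neg (by omega), if_neg (by omega), show 2 * m + 2 - 2 = 2 * m by omega,
    show (2 * m + 2) / 2 = m + 1 by omega]

lemma H_large (m : ℕ) : 2 * (m : ℤ) ≤ H (2 * m) ∧ 1 ≤ H (2 * m) := by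
  induction m using Nat.strong_induction_on with
  | _ m ih =>
    rcases Nat.eq_zero_or_pos m with rfl | hm
    · have : H 0 = 1 := by rw [H]; simp
      simp [this]
    · obtain ⟨j, rfl⟩ : ∃ j, m = j + 1 := ⟨m - 1, by omega⟩
      obtain ⟨a1, a2⟩ := ih j (by omega)
      have e : H (2 * (j + 1)) = H (2 * j) + H (j + 1) := H_even j
      have hj2 : j = 0 ∨ 2 ≤ H (j + 1) := by
        rcases Nat.eq_zero_or_pos j with hj | hj
        · left; exact hj
        · right
          rcases Nat.even_or_odd' (j + 1) with ⟨i, hi | hi⟩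
          · obtain ⟨b1, _⟩ := ih i (by omega)
            rw [hi]
            omega
          · rw [hi, H_odd]
            omega
      rw [e]
      rcases hj2 with rfl | hj2
      · have h0 : H 0 = 1 := by rw [H]; simp
        have h1 : H 1 = 1 := by rw [H]; simp
        simp [h0, h1]
      · push_cast
        omega

lemma exists_H : ∃ h : ℤ → ℤ, IsH h := by
  refine ⟨fun n => if n ≤ 1 then 1 else H n.toNat, fun n hn => if_pos hn, ?_⟩
  have hval : ∀ n : ℕ, (if (n : ℤ) ≤ 1 then 1 else H (n : ℤ).toNat) = H n := by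
    intro n
    by_cases hn : (n : ℤ) ≤ 1
    · rw [if_pos hn, H, dif_pos (by omega)]
    · rw [if_neg hn]; simp
  intro n hn
  obtain ⟨k, rfl⟩ : ∃ k : ℕ, n = k + 2 := ⟨(n - 2).toNat, by omega⟩
  have e1 := hval (k + 2)
  have e2 := hval (k + 1)
  have e3 := hval k
  push_cast at e1 e2
  beta_reduce
  rw [show ((k : ℤ) + 2 - 1) = k + 1 by ring, show ((k : ℤ) + 2 - 2) = k by ring, e1, e2, e3]
  rcases Nat.even_or_odd' k with ⟨i, hi | hi⟩
  · subst hi
    rw [H_even, H_odd]
    have e4 := hval (i + 1)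
    push_cast at e4 ⊢
    rw [show (2 * (i : ℤ) + 2 - (i + 1)) = i + 1 by ring, e4]
    ring
  · subst hi
    have e5 : H (2 * i + 1 + 2) = i + 2 := by
      have := H_odd (i + 1)
      rw [show 2 * i + 1 + 2 = 2 * (i + 1) + 1 by ring, this]
      push_cast
      ring
    rw [e5, H_odd, if_pos]
    · ring
    · have := (H_large (i + 1)).1
      rw [show 2 * (i + 1) = 2 * i + 1 + 1 by ring] at this
      push_cast at this ⊢
      omega

/-! ### The parity sequence and its index sequences -/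

/-- `r(n) = h(n) mod 2` as a natural number. -/
def par (h : ℤ → ℤ) (n : ℕ) : ℕ := (h n % 2).toNat

lemma par_lt (h : ℤ → ℤ) (n : ℕ) : par h n < 2 := by
  unfold par; omega

/-- `E` values for the 8 blocks -/
def EE (κ a b c d : ℕ) : ℕ :=
  if κ = 0 then a else if κ = 1 then 0 else if κ = 2 then b else if κ = 3 then 1
  else if κ = 4 then c else if κ = 5 then 1 else if κ = 6 then d else 0

/-- the pattern of the parities on `[32q, 32q+32)` -/
def RR (j a b c d : ℕ) : ℕ :=
  if j % 4 = 0 then EE (j / 4) a b c d else if j % 4 = 1 then 1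
  else if j % 4 = 2 then (EE (j / 4) a b c d + j / 4 + 1) % 2 else 0

/-- position of the `t`-th one -/
def F1 (t a b c d : ℕ) : ℕ :=
  match t with
  | 0 => 1 - a | 1 => 2 - a | 2 => 5 | 3 => 9 - b | 4 => 10 - b | 5 => 12 | 6 => 13 | 7 => 14
  | 8 => 17 - c | 9 => 18 - c | 10 => 20 | 11 => 21 | 12 => 22 | 13 => 25 - d | 14 => 26 - d
  | _ => 29

/-- position of the `t`-th zero -/
def F0 (t a b c d : ℕ) : ℕ :=
  match t with
  | 0 => 2 * a | 1 => 3 | 2 => 4 | 3 => 6 | 4 => 7 | 5 => 8 + 2 * b | 6 => 11 | 7 => 15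
  | 8 => 16 + 2 * c | 9 => 19 | 10 => 23 | 11 => 24 + 2 * d | 12 => 27 | 13 => 28 | 14 => 30
  | _ => 31

/-- position of the `t`-th occurrence of `i` -/
def FF (i t a b c d : ℕ) : ℕ := if i = 1 then F1 t a b c d else F0 t a b c d

lemma FF_spec1 : ∀ (i a b c d : Fin 2) (t : Fin 16), FF i t a b c d < 32 ∧
    RR (FF i t a b c d) a b c d = i ∧ (t < 15 → FF i t a b c d < FF i (t + 1 : ℕ) a b c d) := by
  decide +kernel

lemma FF_spec2 : ∀ (i a b c d : Fin 2) (j : Fin 32), RR j a b c d = i →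
    ∃ t : Fin 16, FF i t a b c d = j := by
  decide +kernel

section

variable {h : ℤ → ℤ} (hh : IsH h)

include hh

lemma par_two_mul (l : ℕ) : par h (4 * (2 * l + 1)) = (tt l + l).toNat % 2 := by
  have := (h_four hh l).2
  unfold par
  push_cast at this ⊢
  rw [this]
  unfold tt
  split_ifs <;> omega

lemma par_four (k : ℕ) : par h (4 * k + 1) = 1 ∧ par h (4 * k + 2) = (par h (4 * k) + k + 1) % 2 ∧
    par h (4 * k + 3) = 0 := by
  have hb := h_basic hh
  have e1 := (hb (2 * k)).2.2.2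
  have e2 := (hb (2 * k)).1
  have e3 := (hb (2 * k + 1)).1
  have e4 := (hb k).1
  push_cast at e1 e2 e3
  rw [show (2 * (2 * (k : ℤ))) = 4 * k by ring] at e1 e2
  rw [show (2 * (2 * (k : ℤ) + 1) + 1) = 4 * k + 3 by ring] at e3
  rw [e4] at e1
  unfold par
  push_cast
  rw [e1, e2, e3]
  refine ⟨by omega, by omega, by omega⟩

lemma par_block (q j : ℕ) (hj : j < 32) : par h (32 * q + j) =
    RR j (par h (4 * (8 * q))) (par h (4 * (8 * q + 2))) (par h (4 * (8 * q + 4)))
      (par h (4 * (8 * q + 6))) := by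
  have o1 := par_two_mul hh (4 * q)
  have o3 := par_two_mul hh (4 * q + 1)
  have o5 := par_two_mul hh (4 * q + 2)
  have o7 := par_two_mul hh (4 * q + 3)
  have o1' : par h (4 * (8 * q + 1)) = 0 := by
    rw [show 8 * q + 1 = 2 * (4 * q) + 1 by ring, o1]
    unfold tt; rw [if_pos (by omega)]; omega
  have o3' : par h (4 * (8 * q + 3)) = 1 := by
    rw [show 8 * q + 3 = 2 * (4 * q + 1) + 1 by ring, o3]
    unfold tt; rw [if_pos (by omega)]; push_cast; omega
  have o5' : par h (4 * (8 * q + 5)) = 1 := by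
    rw [show 8 * q + 5 = 2 * (4 * q + 2) + 1 by ring, o5]
    unfold tt; rw [if_neg (by omega)]; push_cast; omega
  have o7' : par h (4 * (8 * q + 7)) = 0 := by
    rw [show 8 * q + 7 = 2 * (4 * q + 3) + 1 by ring, o7]
    unfold tt; rw [if_neg (by omega)]; push_cast; omega
  obtain ⟨κ, i, hi, rfl⟩ : ∃ κ i, i < 4 ∧ j = 4 * κ + i := ⟨j / 4, j % 4, by omega, by omega⟩
  have hκ : κ < 8 := by omega
  have hE : par h (4 * (8 * q + κ)) = EE κ (par h (4 * (8 * q))) (par h (4 * (8 * q + 2)))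
      (par h (4 * (8 * q + 4))) (par h (4 * (8 * q + 6))) := by
    interval_cases κ
    · simp [EE]
    · simp [EE, o1']
    · simp [EE]
    · simp [EE, o3']
    · simp [EE]
    · simp [EE, o5']
    · simp [EE]
    · simp [EE, o7']
  obtain ⟨p1, p2, p3⟩ := par_four hh (8 * q + κ)
  rw [hE] at p2
  rw [RR, show (4 * κ + i) % 4 = i by omega, show (4 * κ + i) / 4 = κ by omega]
  interval_cases i
  · rw [if_pos rfl, ← hE]
    congr 1
    ring
  · rw [if_neg (by norm_num), if_pos rfl,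
      show 32 * q + (4 * κ + 1) = 4 * (8 * q + κ) + 1 by ring, p1]
  · rw [if_neg (by norm_num), if_neg (by norm_num), if_pos rfl,
      show 32 * q + (4 * κ + 2) = 4 * (8 * q + κ) + 2 by ring, p2]
    generalize EE κ (par h (4 * (8 * q))) (par h (4 * (8 * q + 2)))
      (par h (4 * (8 * q + 4))) (par h (4 * (8 * q + 6))) = e
    omega
  · rw [if_neg (by norm_num), if_neg (by norm_num), if_neg (by norm_num), ← p3]
    congr 1
    ring

/-- the enumerating function -/
def UU (h : ℤ → ℤ) (i n : ℕ) : ℕ :=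
  32 * (n / 16) + FF i (n % 16) (par h (4 * (8 * (n / 16)))) (par h (4 * (8 * (n / 16) + 2)))
    (par h (4 * (8 * (n / 16) + 4))) (par h (4 * (8 * (n / 16) + 6)))

lemma UU_strictMono (i : ℕ) (hi : i < 2) : StrictMono (UU h i) := by
  apply strictMono_nat_of_lt_succ
  intro n
  obtain ⟨q, t, ht, rfl⟩ : ∃ q t, t < 16 ∧ n = 16 * q + t := ⟨n / 16, n % 16, by omega, by omega⟩
  have s1 := FF_spec1 ⟨i, hi⟩ ⟨_, par_lt h (4 * (8 * q))⟩ ⟨_, par_lt h (4 * (8 * q + 2))⟩
      ⟨_, par_lt h (4 * (8 * q + 4))⟩ ⟨_, par_lt h (4 * (8 * q + 6))⟩ ⟨t, ht⟩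
  simp only at s1
  unfold UU
  rw [show (16 * q + t) / 16 = q by omega, show (16 * q + t) % 16 = t by omega]
  by_cases ht2 : t < 15
  · rw [show (16 * q + t + 1) / 16 = q by omega, show (16 * q + t + 1) % 16 = t + 1 by omega]
    have := s1.2.2 (by exact_mod_cast ht2)
    omega
  · rw [show (16 * q + t + 1) / 16 = q + 1 by omega]
    have := s1.1
    omega

lemma UU_range (i : ℕ) (hi : i < 2) : Set.range (UU h i) = {m : ℕ | h m % 2 = i} := by
  have hpar : ∀ m : ℕ, h m % 2 = i ↔ par h m = i := by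
    intro m; unfold par; omega
  ext m
  simp only [Set.mem_range]
  change _ ↔ h m % 2 = i
  rw [hpar]
  constructor
  · rintro ⟨n, rfl⟩
    obtain ⟨q, t, ht, rfl⟩ : ∃ q t, t < 16 ∧ n = 16 * q + t := ⟨n / 16, n % 16, by omega, by omega⟩
    have s1 := FF_spec1 ⟨i, hi⟩ ⟨_, par_lt h (4 * (8 * q))⟩ ⟨_, par_lt h (4 * (8 * q + 2))⟩
      ⟨_, par_lt h (4 * (8 * q + 4))⟩ ⟨_, par_lt h (4 * (8 * q + 6))⟩ ⟨t, ht⟩
    simp only at s1
    unfold UU
    rw [show (16 * q + t) / 16 = q by omega, show (16 * q + t) % 16 = t by omega,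
      par_block hh _ _ s1.1, s1.2.1]
  · intro hm
    obtain ⟨q, j, hj, rfl⟩ : ∃ q j, j < 32 ∧ m = 32 * q + j := ⟨m / 32, m % 32, by omega, by omega⟩
    rw [par_block hh _ _ hj] at hm
    obtain ⟨t, ht⟩ := FF_spec2 ⟨i, hi⟩ ⟨_, par_lt h (4 * (8 * q))⟩ ⟨_, par_lt h (4 * (8 * q + 2))⟩
      ⟨_, par_lt h (4 * (8 * q + 4))⟩ ⟨_, par_lt h (4 * (8 * q + 6))⟩ ⟨j, hj⟩ hm
    simp only at ht
    refine ⟨16 * q + t, ?_⟩
    have := t.2
    unfold UU
    rw [show (16 * q + (t : ℕ)) / 16 = q by omega, show (16 * q + (t : ℕ)) % 16 = t by omega, ht]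

/-- The finite set of sequences containing the kernel of the parity of `h(4n)`. -/
def TT (h : ℤ → ℤ) : Set (ℕ → ℤ) :=
  Set.range (fun p : ZMod 2 × (ZMod 4 → ZMod 2) =>
    fun n : ℕ => (((p.1 * ((h (4 * n) : ℤ) : ZMod 2) + p.2 (n : ZMod 4)).val : ℕ) : ℤ))

omit hh in
lemma TT_finite : (TT h).Finite := Set.finite_range _

omit hh in
lemma tt_cast (n : ℕ) : ((tt n : ℤ) : ZMod 2) =
    (if (n : ZMod 4) = 0 ∨ (n : ZMod 4) = 1 then 0 else 1) := by
  have h1 : ((n : ZMod 4) = ((n % 4 : ℕ) : ZMod 4)) := (ZMod.natCast_mod n 4).symm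
  rw [h1, tt]
  have h2 : n % 4 < 4 := Nat.mod_lt _ (by norm_num)
  generalize n % 4 = r at *
  interval_cases r <;> decide

omit hh in
lemma n_cast (n : ℕ) : ((n : ℕ) : ZMod 2) =
    (if (n : ZMod 4) = 0 ∨ (n : ZMod 4) = 2 then 0 else 1) := by
  have h1 : ((n : ZMod 4) = ((n % 4 : ℕ) : ZMod 4)) := (ZMod.natCast_mod n 4).symm
  have h3 : ((n : ℕ) : ZMod 2) = ((n % 4 : ℕ) : ZMod 2) := by
    rw [ZMod.natCast_eq_natCast_iff]
    unfold Nat.ModEq
    omega
  rw [h1, h3]
  have h2 : n % 4 < 4 := Nat.mod_lt _ (by norm_num)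
  generalize n % 4 = r at *
  interval_cases r <;> decide

lemma e_even (n : ℕ) : ((h (4 * (2 * n : ℕ)) : ℤ) : ZMod 2) = ((h (4 * n) : ℤ) : ZMod 2) +
    ((tt n : ℤ) : ZMod 2) := by
  have := (h_four hh n).1
  rw [← Int.cast_add, ZMod.intCast_eq_intCast_iff]
  exact this

lemma e_odd (n : ℕ) : ((h (4 * (2 * n + 1 : ℕ)) : ℤ) : ZMod 2) = ((tt n : ℤ) : ZMod 2) + n := by
  have := (h_four hh n).2
  rw [show ((tt n : ℤ) : ZMod 2) + (n : ZMod 2) = ((tt n + n : ℤ) : ZMod 2) by push_cast; rfl,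
    ZMod.intCast_eq_intCast_iff]
  exact this

lemma TT_closed : ∀ x ∈ TT h, ∀ b ≤ 1, (fun n => x (2 * n + b)) ∈ TT h := by
  rintro x ⟨⟨α, s⟩, rfl⟩ b hb
  interval_cases b
  · refine ⟨(α, fun r => α * (if r = 0 ∨ r = 1 then 0 else 1) + s (2 * r)), ?_⟩
    funext n
    simp only [add_zero]
    congr 2
    have e1 := e_even hh n
    push_cast at e1 ⊢
    rw [e1, tt_cast]
    ring
  · refine ⟨(0, fun r => α * ((if r = 0 ∨ r = 1 then 0 else 1) + (if r = 0 ∨ r = 2 then 0 else 1))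
      + s (2 * r + 1)), ?_⟩
    funext n
    simp only
    congr 2
    have e1 := e_odd hh n
    push_cast at e1 ⊢
    rw [e1, tt_cast, n_cast]
    ring

lemma par_mem_TT : (fun n => (par h (4 * n) : ℤ)) ∈ TT h := by
  refine ⟨(1, fun _ => 0), ?_⟩
  funext n
  simp only [one_mul, add_zero]
  unfold par
  have h1 : ((h (4 * (n : ℤ)) : ℤ) : ZMod 2) = (((h (4 * (n : ℤ)) % 2).toNat : ℕ) : ZMod 2) := by
    have : (((h (4 * (n : ℤ)) % 2).toNat : ℕ) : ℤ) = h (4 * (n : ℤ)) % 2 := by omega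
    rw [← Int.cast_natCast (R := ZMod 2), this, ZMod.intCast_eq_intCast_iff]
    exact (Int.mod_modEq _ _).symm
  rw [h1, ZMod.val_natCast]
  push_cast
  omega

lemma par8_mem (κ : ℕ) (hκ : κ < 8) : (fun n => (par h (4 * (8 * n + κ)) : ℤ)) ∈ TT h := by
  have h0 := par_mem_TT hh
  have h1 := TT_closed hh _ h0 (κ % 2) (by omega)
  have h2 := TT_closed hh _ h1 (κ / 2 % 2) (by omega)
  have h3 := TT_closed hh _ h2 (κ / 4) (by omega)
  convert h3 using 5
  omega

lemma regular (i : ℕ) (hi : i < 2) : IsRegular 2 (fun n => (UU h i n : ℤ)) := by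
  apply reg_aux (TT_finite (h := h)) (TT_closed hh)
  have p0 := par8_mem hh 0 (by norm_num)
  have p2 := par8_mem hh 2 (by norm_num)
  have p4 := par8_mem hh 4 (by norm_num)
  have p6 := par8_mem hh 6 (by norm_num)
  simp only [add_zero] at p0
  intro t ht
  have hval : ∀ n, UU h i (16 * n + t) = 32 * n + FF i t (par h (4 * (8 * n)))
      (par h (4 * (8 * n + 2))) (par h (4 * (8 * n + 4))) (par h (4 * (8 * n + 6))) := by
    intro n
    unfold UU
    rw [show (16 * n + t) / 16 = n by omega, show (16 * n + t) % 16 = t by omega]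
  have key : ∀ (c d : ℤ) (x : ℕ → ℤ), x ∈ TT h → (∀ n, (FF i t (par h (4 * (8 * n)))
      (par h (4 * (8 * n + 2))) (par h (4 * (8 * n + 4))) (par h (4 * (8 * n + 6))) : ℤ) =
      c + d * x n) → ∃ c d : ℤ, ∃ x ∈ TT h, ∀ n : ℕ, (UU h i (16 * n + t) : ℤ) =
        32 * n + c + d * x n := by
    intro c d x hx hF
    refine ⟨c, d, x, hx, fun n => ?_⟩
    rw [hval]
    push_cast
    rw [hF]
    ring
  have l0 : ∀ n, par h (4 * (8 * n)) < 2 := fun n => par_lt h _
  have l2 : ∀ n, par h (4 * (8 * n + 2)) < 2 := fun n => par_lt h _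
  have l4 : ∀ n, par h (4 * (8 * n + 4)) < 2 := fun n => par_lt h _
  have l6 : ∀ n, par h (4 * (8 * n + 6)) < 2 := fun n => par_lt h _
  interval_cases i
  · interval_cases t
    · exact key 0 2 _ p0 (fun n => by simp [FF, F0])
    · exact key 3 0 _ p0 (fun n => by simp [FF, F0])
    · exact key 4 0 _ p0 (fun n => by simp [FF, F0])
    · exact key 6 0 _ p0 (fun n => by simp [FF, F0])
    · exact key 7 0 _ p0 (fun n => by simp [FF, F0])
    · exact key 8 2 _ p2 (fun n => by simp [FF, F0])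
    · exact key 11 0 _ p0 (fun n => by simp [FF, F0])
    · exact key 15 0 _ p0 (fun n => by simp [FF, F0])
    · exact key 16 2 _ p4 (fun n => by simp [FF, F0])
    · exact key 19 0 _ p0 (fun n => by simp [FF, F0])
    · exact key 23 0 _ p0 (fun n => by simp [FF, F0])
    · exact key 24 2 _ p6 (fun n => by simp [FF, F0])
    · exact key 27 0 _ p0 (fun n => by simp [FF, F0])
    · exact key 28 0 _ p0 (fun n => by simp [FF, F0])
    · exact key 30 0 _ p0 (fun n => by simp [FF, F0])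
    · exact key 31 0 _ p0 (fun n => by simp [FF, F0])
  · interval_cases t
    · exact key 1 (-1) _ p0 (fun n => by have := l0 n; simp only [FF, F1, if_true]; omega)
    · exact key 2 (-1) _ p0 (fun n => by have := l0 n; simp only [FF, F1, if_true]; omega)
    · exact key 5 0 _ p0 (fun n => by simp [FF, F1])
    · exact key 9 (-1) _ p2 (fun n => by have := l2 n; simp only [FF, F1, if_true]; omega)
    · exact key 10 (-1) _ p2 (fun n => by have := l2 n; simp only [FF, F1, if_true]; omega)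
    · exact key 12 0 _ p0 (fun n => by simp [FF, F1])
    · exact key 13 0 _ p0 (fun n => by simp [FF, F1])
    · exact key 14 0 _ p0 (fun n => by simp [FF, F1])
    · exact key 17 (-1) _ p4 (fun n => by have := l4 n; simp only [FF, F1, if_true]; omega)
    · exact key 18 (-1) _ p4 (fun n => by have := l4 n; simp only [FF, F1, if_true]; omega)
    · exact key 20 0 _ p0 (fun n => by simp [FF, F1])
    · exact key 21 0 _ p0 (fun n => by simp [FF, F1])
    · exact key 22 0 _ p0 (fun n => by simp [FF, F1])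
    · exact key 25 (-1) _ p6 (fun n => by have := l6 n; simp only [FF, F1, if_true]; omega)
    · exact key 26 (-1) _ p6 (fun n => by have := l6 n; simp only [FF, F1, if_true]; omega)
    · exact key 29 0 _ p0 (fun n => by simp [FF, F1])

end

/-- The function `h` exists, and for `i = 0, 1` the strictly increasing enumeration `u` (which
exists and is unique) of `{m ∈ ℕ : h(m) mod 2 = i}` is 2-regular. -/
theorem result : (∃ h : ℤ → ℤ, IsH h) ∧ ∀ h : ℤ → ℤ, IsH h → ∀ i < 2,
    (∃ u : ℕ → ℕ, StrictMono u ∧ Set.range u = {m : ℕ | h m % 2 = (i : ℕ)}) ∧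
    ∀ u : ℕ → ℕ, StrictMono u → Set.range u = {m : ℕ | h m % 2 = (i : ℕ)} →
      IsRegular 2 (fun n => (u n : ℤ)) := by
  refine ⟨exists_H, fun h hh i hi => ⟨⟨UU h i, UU_strictMono hh i hi, UU_range hh i hi⟩, ?_⟩⟩
  intro u hu hr
  have : u = UU h i := by
    rw [← StrictMono.range_inj hu (UU_strictMono hh i hi), hr, UU_range hh i hi]
  rw [this]
  exact regular hh i hi

end Pool.Agent.Results.MP_f90694_nt.TwoRegular
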